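import Pool.Agent.TH872.Sq.W21

set_option autoImplicit false

namespace Pool.Agent.Results.MP_0c9a68_nt.DigitRestrictedArguments
open Finset
open Pool.Agent.TH872.Sq (qv dg dg_zero ld SD main_coefC fx liF muF nice_liF nice_muF)

/-- the integers below `b ^ k` whose `i`-th digit in base `b` belongs to `D i` for all `i < k` -/
def S (b : ℕ) (D : ℕ → Finset ℕ) (k : ℕ) : Finset ℕ := (range (b ^ k)).filter (fun n : ℕ => ∀ i < k, n / b ^ i % b ∈ D i)

/-- the Liouville function -/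
noncomputable def lam (n : ℕ) : ℝ := (-1) ^ ArithmeticFunction.cardFactors n

/-- the Moebius function -/
noncomputable def mob (n : ℕ) : ℝ := (ArithmeticFunction.moebius n : ℝ)

/-- the sum of `f(α n + y) ∏ g j (n + h j)` over the `n < Y` in `S` congruent to `c` modulo `q` -/
noncomputable def Sum (b : ℕ) (D : ℕ → Finset ℕ) (k : ℕ) (f : ℕ → ℝ) (α : ℕ) {r : ℕ} (g : Fin r → ℤ → ℂ) (h : Fin r → ℤ) (y Y q c : ℕ) : ℂ :=
  ∑ n ∈ (S b D k).filter (fun n => n < Y ∧ n % q = c), (f (α * n + y) : ℂ) * ∏ j, g j ((n : ℤ) + h j)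

open scoped Classical in
/-- **Elliott's conjecture with one factor `λ` or `μ` and arbitrary other factors, over integers with restricted digits, for
almost all values of the shift of that factor.** -/
theorem result (b : ℕ) (hb : 2 ≤ b) (α : ℕ) (hα : 1 ≤ α) (F A U : ℕ) (f : ℕ → ℝ) (hf : f = lam ∨ f = mob) :
    ∃ K₀ : ℕ, ∀ k : ℕ, K₀ ≤ k → ∀ D : ℕ → Finset ℕ, (∀ i < k, D i ⊆ range b ∧ 2 ≤ (D i).card) →
    ∀ X : ℕ, b ^ k ≤ X → X ≤ F * b ^ k →
    ∀ (r : ℕ) (g : Fin r → ℤ → ℂ) (h : Fin r → ℤ), (∀ j x, ‖g j x‖ ≤ 1) →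
    (((Icc 1 X).filter (fun y : ℕ => ∃ Y q c : ℕ, Y ≤ b ^ k ∧ 1 ≤ q ∧ q ≤ k ^ A ∧
      ((S b D k).card : ℝ) / (k : ℝ) ^ U < ‖Sum b D k f α g h y Y q c‖)).card : ℝ) ≤ (X : ℝ) / (k : ℝ) ^ U := by
  have hld : ld 0 (α : ℤ) ≠ 0 := by
    unfold ld
    rw [if_pos rfl]
    exact_mod_cast (by omega : α ≠ 0)
  have hnice : Pool.Agent.W93.LM.Nice (fun n => ((f n : ℝ) : ℂ)) := by
    rcases hf with h | h <;> rw [h]
    · exact nice_liF
    · exact nice_muF
  obtain ⟨K₀, h1⟩ := main_coefC b hb 0 (α : ℤ) hld f hnice F A 0 U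
  refine ⟨K₀, fun k hk D hD X hX1 hX2 r g h hg => ?_⟩
  apply h1 k (by omega) D hD 1 (Or.inl rfl) X (by rw [dg_zero, one_mul]; exact hX1) (by rw [dg_zero, one_mul]; exact hX2)
    (fun n => ∏ j, g j ((n : ℤ) + h j))
  · intro n _
    rw [pow_zero, norm_prod]
    exact prod_le_one (fun _ _ => norm_nonneg _) fun j _ => hg j _
  · intro y hy hQ
    rw [mem_Icc] at hy
    obtain ⟨Y, q, c, hY, hq1, hq2, hlt⟩ := hQ
    refine ⟨Y, q, c, hY, hq1, hq2, ?_⟩
    refine lt_of_lt_of_le hlt (le_of_eq ?_)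
    unfold Sum
    congr 1
    apply sum_congr rfl
    intro n _
    rw [mul_comm]
    congr 2
    unfold fx qv
    have e1 : (0 : ℤ) * (n : ℤ) ^ 2 + (α : ℤ) * n + 1 * (y : ℤ) = ((α * n + y : ℕ) : ℤ) := by push_cast; ring
    rw [e1, if_pos (by exact_mod_cast (by omega : 1 ≤ α * n + y)), Int.toNat_natCast]

end Pool.Agent.Results.MP_0c9a68_nt.DigitRestrictedArguments
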